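import Pool.Agent.Helper36.Alg.Graph

/-! GA-4: connectivity. -/

set_option autoImplicit false

namespace Pool.Agent.Helper36.Alg

open Finset Pool.Agent.Helper36.PT

theorem cardN_eq (n : ℕ) (χ : ℕ → Prop) : cardN n χ = (vset n χ).card := by
  classical
  unfold cardN vset
  rw [Finset.card_filter, ← Fin.sum_univ_eq_sum_range (fun v => ind (χ v)) n]
  refine Finset.sum_congr rfl fun v _ => ?_
  unfold ind
  by_cases h : χ v <;> simp [h]

/-- Reachable in at most `t` steps. -/
def ga4P (n : ℕ) (R : ℕ → ℕ → Prop) (χ : ℕ → Prop) (u : ℕ) : ℕ → ℕ → Prop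
  | 0, w => w = u
  | t + 1, w => ga4P n R χ u t w ∨ (χ w ∧ ∃ z < n, ga4P n R χ u t z ∧ up R z w)

theorem ga4_getD (n : ℕ) (Q : ℕ → Prop) (w : ℕ) :
    ((List.range n).map (fun w => ind (Q w))).getD w 0 ≠ 0 ↔ w < n ∧ Q w := by
  classical
  by_cases hw : w < n
  · rw [List.getD_eq_getElem _ _ (by simpa using hw)]
    simp only [List.getElem_map, List.getElem_range, hw, true_and]
    unfold ind
    by_cases h : Q w <;> simp [h]
  · rw [List.getD_eq_default _ _ (by simpa using hw)]
    simp [hw]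

theorem ga4_reachN (n : ℕ) (R : ℕ → ℕ → Prop) (χ : ℕ → Prop) (u t : ℕ) :
    recN ((List.range n).map (fun w => ind (w = u)))
    (fun _ S => (List.range n).map (fun w =>
      ind (S.getD w 0 ≠ 0 ∨ (χ w ∧ ∃ z < n, S.getD z 0 ≠ 0 ∧ up R z w)))) t =
    (List.range n).map (fun w => ind (ga4P n R χ u t w)) := by
  induction t with
  | zero => rfl
  | succ t ih =>
    rw [recN, ih]
    refine List.map_congr_left fun w hw => ?_
    have hw' : w < n := List.mem_range.mp hw
    congr 1
    rw [ga4P, ga4_getD]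
    simp only [hw', true_and, ga4_getD]
    apply propext
    refine or_congr_right (and_congr_right fun _ => ?_)
    constructor
    · rintro ⟨z, hz, h1, h2⟩
      exact ⟨z, hz, h1.2, h2⟩
    · rintro ⟨z, hz, h1, h2⟩
      exact ⟨z, hz, ⟨hz, h1⟩, h2⟩

theorem ga4_reachP (n : ℕ) (R : ℕ → ℕ → Prop) (χ : ℕ → Prop) (u v : ℕ) :
    reachP n R χ u v ↔ v < n ∧ ga4P n R χ u n v := by
  unfold reachP reachN
  rw [ga4_reachN, ga4_getD]

open Classical in
/-- The set of the vertices reachable in at most `t` steps. -/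
noncomputable def ga4S (n : ℕ) (R : ℕ → ℕ → Prop) (χ : ℕ → Prop) (u t : ℕ) : Finset ℕ :=
  (Finset.range n).filter (ga4P n R χ u t)

theorem ga4_mem (n : ℕ) (R : ℕ → ℕ → Prop) (χ : ℕ → Prop) (u t w : ℕ) :
    w ∈ ga4S n R χ u t ↔ w < n ∧ ga4P n R χ u t w := by
  simp only [ga4S, Finset.mem_filter, Finset.mem_range]

theorem ga4_mono (n : ℕ) (R : ℕ → ℕ → Prop) (χ : ℕ → Prop) (u t : ℕ) :
    ga4S n R χ u t ⊆ ga4S n R χ u (t + 1) := by
  intro w hw
  rw [ga4_mem] at hw ⊢
  exact ⟨hw.1, Or.inl hw.2⟩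

theorem ga4_stable (n : ℕ) (R : ℕ → ℕ → Prop) (χ : ℕ → Prop) (u t : ℕ)
    (h : ga4S n R χ u t = ga4S n R χ u (t + 1)) :
    ga4S n R χ u (t + 1) = ga4S n R χ u (t + 2) := by
  have hz : ∀ z < n, (ga4P n R χ u t z ↔ ga4P n R χ u (t + 1) z) := by
    intro z hz
    have h1 := congrArg (fun S => z ∈ S) h
    simp only [ga4_mem, hz, true_and, eq_iff_iff] at h1
    exact h1
  ext w
  rw [ga4_mem, ga4_mem]
  refine and_congr_right fun hw => ?_
  constructor
  · exact fun h1 => Or.inl h1
  · rintro (h1 | ⟨h1, z, hzn, h2, h3⟩)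
    · exact h1
    · exact Or.inr ⟨h1, z, hzn, (hz z hzn).mpr h2, h3⟩

theorem ga4_closed (n : ℕ) (R : ℕ → ℕ → Prop) (χ : ℕ → Prop) {u : ℕ} (hu : u < n) :
    ga4S n R χ u n = ga4S n R χ u (n + 1) := by
  by_contra hne
  have h1 : ∀ t ≤ n, ga4S n R χ u t ≠ ga4S n R χ u (t + 1) := by
    intro t ht heq
    have h2 : ∀ k, ga4S n R χ u (t + k) = ga4S n R χ u (t + k + 1) := by
      intro k
      induction k with
      | zero => exact heq
      | succ k ih => exact ga4_stable n R χ u (t + k) ih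
    have h3 := h2 (n - t)
    rw [show t + (n - t) = n by omega] at h3
    exact hne h3
  have h2 : ∀ t ≤ n, t + 1 ≤ (ga4S n R χ u t).card := by
    intro t
    induction t with
    | zero =>
      intro _
      rw [Nat.succ_le_iff, Finset.card_pos]
      exact ⟨u, (ga4_mem _ _ _ _ _ _).mpr ⟨hu, rfl⟩⟩
    | succ t ih =>
      intro ht
      have h3 := ih (by omega)
      have h4 : ga4S n R χ u t ⊂ ga4S n R χ u (t + 1) :=
        (ga4_mono n R χ u t).ssubset_of_ne (h1 t (by omega))
      have h5 := Finset.card_lt_card h4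
      omega
  have h3 := h2 n le_rfl
  have h4 : (ga4S n R χ u n).card ≤ n := by
    calc (ga4S n R χ u n).card ≤ (Finset.range n).card := Finset.card_le_card (by
          intro w hw
          exact Finset.mem_range.mpr ((ga4_mem _ _ _ _ _ _).mp hw).1)
      _ = n := Finset.card_range n
  omega

theorem reachP_iff {n : ℕ} {R : ℕ → ℕ → Prop} {χ : ℕ → Prop} {u v : ℕ} (hu : u < n) :
    reachP n R χ u v ↔ Relation.ReflTransGen (fun x y => y < n ∧ χ y ∧ up R x y) u v := by
  rw [ga4_reachP]
  constructor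
  · rintro ⟨hv, h⟩
    have key : ∀ t w, w < n → ga4P n R χ u t w →
        Relation.ReflTransGen (fun x y => y < n ∧ χ y ∧ up R x y) u w := by
      intro t
      induction t with
      | zero =>
        intro w _ h1
        have h2 : w = u := h1
        rw [h2]
      | succ t ih =>
        intro w hw h1
        rcases h1 with h1 | ⟨h1, z, hz, h2, h3⟩
        · exact ih w hw h1
        · exact (ih z hz h2).tail ⟨hw, h1, h3⟩
    exact key n v hv h
  · intro h
    rw [← ga4_mem]
    induction h with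
    | refl =>
      have key : ∀ t, u ∈ ga4S n R χ u t := by
        intro t
        induction t with
        | zero => exact (ga4_mem _ _ _ _ _ _).mpr ⟨hu, rfl⟩
        | succ t ih => exact ga4_mono n R χ u t ih
      exact key n
    | tail _ h1 ih =>
      rw [ga4_closed n R χ hu, ga4_mem]
      rw [ga4_mem] at ih
      exact ⟨h1.1, Or.inr ⟨h1.2.1, _, ih.1, ih.2, h1.2.2⟩⟩

theorem connN_iff (n : ℕ) (R : ℕ → ℕ → Prop) (χ : ℕ → Prop) :
    connN n R χ ↔ ((gr n R).induce ((vset n χ : Finset (Fin n)) : Set (Fin n))).Connected := by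
  have hmem : ∀ v : Fin n, v ∈ ((vset n χ : Finset (Fin n)) : Set (Fin n)) ↔ χ v := by
    intro v
    simp only [vset, Finset.coe_filter, Finset.mem_univ, true_and, Set.mem_ofPred_eq]
  rw [SimpleGraph.connected_iff]
  unfold connN
  rw [and_comm]
  refine and_congr ?_ ?_
  · constructor
    · intro h a b
      rw [SimpleGraph.reachable_iff_reflTransGen]
      have h1 := h a.1 a.1.2 b.1 b.1.2 ((hmem _).mp a.2) ((hmem _).mp b.2)
      rw [reachP_iff a.1.2] at h1
      have key : ∀ w, Relation.ReflTransGen (fun x y => y < n ∧ χ y ∧ up R x y) (a.1 : ℕ) w →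
          ∀ (hw : w < n) (hc : (⟨w, hw⟩ : Fin n) ∈ ((vset n χ : Finset (Fin n)) : Set (Fin n))),
          Relation.ReflTransGen
            ((gr n R).induce ((vset n χ : Finset (Fin n)) : Set (Fin n))).Adj a
            ⟨⟨w, hw⟩, hc⟩ := by
        intro w hw
        induction hw with
        | refl =>
          intro _ _
          exact Relation.ReflTransGen.refl
        | tail hx h2 ih =>
          rename_i x y
          intro hy hc
          -- `x` is `a` or in `χ`
          have hxn : x < n ∧ χ x := by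
            rcases Relation.ReflTransGen.cases_tail hx with h3 | ⟨z, _, h3⟩
            · rw [h3]
              exact ⟨a.1.2, (hmem _).mp a.2⟩
            · exact ⟨h3.1, h3.2.1⟩
          refine (ih hxn.1 ((hmem _).mpr hxn.2)).tail ?_
          exact h2.2.2
      exact key b.1 h1 b.1.2 b.2
    · intro h u hu v hv hχu hχv
      rw [reachP_iff hu]
      have h1 := h ⟨⟨u, hu⟩, (hmem _).mpr hχu⟩ ⟨⟨v, hv⟩, (hmem _).mpr hχv⟩
      rw [SimpleGraph.reachable_iff_reflTransGen] at h1
      exact Relation.ReflTransGen.lift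
        (p := fun x y => y < n ∧ χ y ∧ up R x y)
        (fun w : ((vset n χ : Finset (Fin n)) : Set (Fin n)) => ((w.1 : Fin n) : ℕ))
        (fun x y hxy => ⟨y.1.2, (hmem _).mp y.2, hxy⟩) _ _ h1
  · constructor
    · rintro ⟨u, hu, h⟩
      exact ⟨⟨⟨u, hu⟩, (hmem _).mpr h⟩⟩
    · rintro ⟨a⟩
      exact ⟨a.1, a.1.2, (hmem _).mp a.2⟩

end Pool.Agent.Helper36.Alg
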