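import Pool.Agent.Helper36.Alg.Graph

/-! GA-1: sparse sets and matchings (Hall). -/

set_option autoImplicit false

namespace Pool.Agent.Helper36.Alg

open Finset Pool.Agent.Helper36.PT
open Pool.Agent.Helper36.Pin (Sparse)

/-- The edge of a left node. -/
def gaEdge {V : Type} {F : Finset (Sym2 V)} (e : Sym2 V) : F ⊕ Fin 3 → Sym2 V :=
  Sum.elim (fun e' => e'.1) (fun _ => e)

theorem sparse_iff_match {V : Type} [Fintype V] [DecidableEq V] (F : Finset (Sym2 V))
    (hF : ∀ e ∈ F, ¬ e.IsDiag) :
    Sparse F ↔ ∀ e ∈ F, ∃ f : F ⊕ Fin 3 → V × Fin 2, Function.Injective f ∧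
      (∀ e' : F, (f (Sum.inl e')).1 ∈ e'.1) ∧ ∀ i, (f (Sum.inr i)).1 ∈ e := by
  classical
  constructor
  · rintro ⟨-, hS⟩ e he
    let t : F ⊕ Fin 3 → Finset (V × Fin 2) := fun x =>
      Finset.univ.filter fun p : V × Fin 2 => p.1 ∈ gaEdge e x
    have hall : ∀ s : Finset (F ⊕ Fin 3), s.card ≤ (s.biUnion t).card := by
      intro s
      rcases s.eq_empty_or_nonempty with rfl | ⟨x₀, hx₀⟩
      · simp
      set X : Finset V := Finset.univ.filter fun v => ∃ x ∈ s, v ∈ gaEdge e x with hX
      have hsub : s.biUnion t = X ×ˢ (Finset.univ : Finset (Fin 2)) := by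
        ext p
        simp only [t, hX, Finset.mem_biUnion, Finset.mem_filter, Finset.mem_univ, true_and,
          Finset.mem_product, and_true]
      have hedge : ∀ x : F ⊕ Fin 3, gaEdge e x ∈ F := by
        rintro (e' | i)
        · exact e'.2
        · exact he
      have hX2 : 2 ≤ X.card := by
        have h1 := hF _ (hedge x₀)
        obtain ⟨a, b, hab⟩ : ∃ a b, gaEdge e x₀ = s(a, b) := by
          induction gaEdge e x₀ with | _ a b => exact ⟨a, b, rfl⟩
        rw [hab, Sym2.mk_isDiag_iff] at h1
        have h2 : ({a, b} : Finset V) ⊆ X := by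
          intro v hv
          simp only [Finset.mem_insert, Finset.mem_singleton] at hv
          simp only [hX, Finset.mem_filter, Finset.mem_univ, true_and]
          refine ⟨x₀, hx₀, ?_⟩
          rw [hab, Sym2.mem_iff]
          exact hv
        have h3 := Finset.card_le_card h2
        rwa [Finset.card_pair h1] at h3
      have h1 := hS X hX2
      have h2 : s.card = s.toLeft.card + s.toRight.card := (Finset.card_toLeft_add_card_toRight).symm
      have h3 : s.toRight.card ≤ 3 := by
        simpa using Finset.card_le_univ s.toRight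
      have h4 : s.toLeft.card ≤ (F ∩ X.sym2).card := by
        rw [← Finset.card_map (Function.Embedding.subtype (fun e' => e' ∈ F))]
        refine Finset.card_le_card ?_
        intro e' he'
        rw [Finset.mem_map] at he'
        obtain ⟨e'', h5, rfl⟩ := he'
        rw [Finset.mem_toLeft] at h5
        rw [Finset.mem_inter]
        refine ⟨e''.2, ?_⟩
        rw [Finset.mem_sym2_iff]
        intro v hv
        simp only [hX, Finset.mem_filter, Finset.mem_univ, true_and]
        exact ⟨Sum.inl e'', h5, hv⟩
      rw [hsub, Finset.card_product, Finset.card_univ, Fintype.card_fin]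
      omega
    obtain ⟨f, hf, hft⟩ := (Finset.all_card_le_biUnion_card_iff_exists_injective t).mp hall
    refine ⟨f, hf, fun e' => ?_, fun i => ?_⟩
    · exact (Finset.mem_filter.mp (hft (Sum.inl e'))).2
    · exact (Finset.mem_filter.mp (hft (Sum.inr i))).2
  · intro h
    refine ⟨hF, fun X hX => ?_⟩
    rcases (F ∩ X.sym2).eq_empty_or_nonempty with h0 | ⟨e, he⟩
    · rw [h0, Finset.card_empty]; omega
    have heF := (Finset.mem_inter.mp he).1
    have heX := (Finset.mem_inter.mp he).2
    rw [Finset.mem_sym2_iff] at heX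
    obtain ⟨f, hf, h1, h2⟩ := h e heF
    let g : (F ∩ X.sym2 : Finset (Sym2 V)) ⊕ Fin 3 → (X ×ˢ (Finset.univ : Finset (Fin 2)) :
        Finset (V × Fin 2)) := Sum.elim
      (fun e' => ⟨f (Sum.inl ⟨e'.1, (Finset.mem_inter.mp e'.2).1⟩), by
        have h3 := h1 ⟨e'.1, (Finset.mem_inter.mp e'.2).1⟩
        have h4 := (Finset.mem_inter.mp e'.2).2
        rw [Finset.mem_sym2_iff] at h4
        exact Finset.mem_product.mpr ⟨h4 _ h3, Finset.mem_univ _⟩⟩)
      (fun i => ⟨f (Sum.inr i), Finset.mem_product.mpr ⟨heX _ (h2 i), Finset.mem_univ _⟩⟩)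
    have hg : Function.Injective g := by
      rintro (a | a) (b | b) hab
      · have h3 := hf (congrArg Subtype.val hab)
        have h4 := Sum.inl.inj h3
        have h5 : a.1 = b.1 := congrArg (fun z : F => z.1) h4
        rw [Subtype.ext h5]
      · have h3 := hf (congrArg Subtype.val hab)
        exact absurd h3 (by simp)
      · have h3 := hf (congrArg Subtype.val hab)
        exact absurd h3 (by simp)
      · have h3 := hf (congrArg Subtype.val hab)
        rw [Sum.inr.inj h3]
    have h3 := Fintype.card_le_of_injective g hg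
    rw [Fintype.card_sum, Fintype.card_coe, Fintype.card_coe, Fintype.card_fin,
      Finset.card_product, Finset.card_univ, Fintype.card_fin] at h3
    omega

end Pool.Agent.Helper36.Alg
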