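import Pool.Agent.Helper36.Alg.Graph
import Pool.Agent.Helper16.Pin.RankD
import Pool.Agent.Helper39.GA.Sparse

/-! GA-3: the rank by the greedy algorithm. -/

set_option autoImplicit false

namespace Pool.Agent.Helper36.Alg

open Finset Pool.Agent.Helper36.PT
open Pool.Agent.Helper36.Pin (Sparse rk edges)

theorem mem_pairs {n : ℕ} {R : ℕ → ℕ → Prop} {u v : Fin n} :
    s(u, v) ∈ pairs n R ↔ up R u v := by
  simp only [pairs, Finset.mem_filter, Finset.mem_univ, true_and]
  unfold up
  constructor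
  · rintro ⟨a, b, hab, hR, h⟩
    rw [Sym2.eq_iff] at h
    rcases h with ⟨rfl, rfl⟩ | ⟨rfl, rfl⟩
    · exact Or.inl ⟨hab, hR⟩
    · exact Or.inr ⟨hab, hR⟩
  · rintro (⟨h1, h2⟩ | ⟨h1, h2⟩)
    · exact ⟨u, v, h1, h2, rfl⟩
    · exact ⟨v, u, h1, h2, Sym2.eq_swap⟩

theorem edges_gr (n : ℕ) (R : ℕ → ℕ → Prop) : edges (gr n R) = pairs n R := by
  ext e
  induction e with | _ u v =>
  rw [mem_pairs]
  simp only [edges, Finset.mem_filter, Finset.mem_univ, true_and, SimpleGraph.mem_edgeSet]
  rfl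

/-- The edge with the code `k`. -/
def ga3E (n k : ℕ) (h : k < n * n) : Sym2 (Fin n) :=
  s(⟨k / n, Nat.div_lt_of_lt_mul h⟩,
    ⟨k % n, Nat.mod_lt _ (Nat.pos_of_ne_zero (by rintro rfl; simp at h))⟩)

theorem ga3_eset {n k : ℕ} {L : List ℕ} (h : k < n * n) (hk : k / n < k % n) :
    eset n (k :: L) = insert (ga3E n k h) (eset n L) := by
  have hn : 0 < n := Nat.pos_of_ne_zero (by rintro rfl; simp at h)
  ext e
  simp only [eset, Finset.mem_filter, Finset.mem_univ, true_and, Finset.mem_insert,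
    List.mem_cons]
  constructor
  · rintro ⟨u, v, huv, h1 | h1, rfl⟩
    · left
      have h2 : k / n = u := by
        rw [← h1, Nat.mul_comm, Nat.mul_add_div hn, Nat.div_eq_of_lt v.2, Nat.add_zero]
      have h3 : k % n = v := by
        rw [← h1, Nat.mul_comm, Nat.mul_add_mod, Nat.mod_eq_of_lt v.2]
      unfold ga3E
      congr 2
      · exact Fin.ext h2.symm
      · exact Fin.ext h3.symm
    · exact Or.inr ⟨u, v, huv, h1, rfl⟩
  · rintro (rfl | ⟨u, v, huv, h1, rfl⟩)
    · refine ⟨⟨k / n, Nat.div_lt_of_lt_mul h⟩, ⟨k % n, Nat.mod_lt _ hn⟩, hk, Or.inl ?_, rfl⟩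
      exact Nat.div_add_mod' k n
    · exact ⟨u, v, huv, Or.inr h1, rfl⟩

/-- The list after `t` steps. -/
noncomputable def ga3L (n : ℕ) (R : ℕ → ℕ → Prop) (t : ℕ) : List ℕ := by
  classical
  exact recN [] (fun k L => if k / n < k % n ∧ R (k / n) (k % n) ∧ sparseN n (k :: L) then k :: L
    else L) t

theorem ga3_succ (n : ℕ) (R : ℕ → ℕ → Prop) (t : ℕ) :
    (t / n < t % n ∧ R (t / n) (t % n) ∧ sparseN n (t :: ga3L n R t) ∧
      ga3L n R (t + 1) = t :: ga3L n R t) ∨
    (¬ (t / n < t % n ∧ R (t / n) (t % n) ∧ sparseN n (t :: ga3L n R t)) ∧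
      ga3L n R (t + 1) = ga3L n R t) := by
  classical
  by_cases h : t / n < t % n ∧ R (t / n) (t % n) ∧ sparseN n (t :: ga3L n R t)
  · left
    refine ⟨h.1, h.2.1, h.2.2, ?_⟩
    conv_lhs => unfold ga3L
    rw [recN]
    exact if_pos h
  · right
    refine ⟨h, ?_⟩
    conv_lhs => unfold ga3L
    rw [recN]
    exact if_neg h

theorem ga3_inv (n : ℕ) (R : ℕ → ℕ → Prop) (t : ℕ) (ht : t ≤ n * n) :
    (ga3L n R t).Nodup ∧
    (∀ k ∈ ga3L n R t, k < t ∧ k / n < k % n ∧ R (k / n) (k % n)) ∧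
    Sparse (eset n (ga3L n R t)) ∧
    (eset n (ga3L n R t)).card = (ga3L n R t).length ∧
    ∀ k (hk : k < t), k / n < k % n → R (k / n) (k % n) → k ∉ ga3L n R t →
      ¬ Sparse (insert (ga3E n k (hk.trans_le ht)) (eset n (ga3L n R t))) := by
  induction t with
  | zero =>
    have h0 : ga3L n R 0 = [] := rfl
    have h1 : eset n [] = ∅ := by
      ext e
      simp [eset]
    rw [h0, h1]
    refine ⟨List.nodup_nil, fun k hk => absurd hk (by simp), ?_, by simp, fun k hk => absurd hk (by simp)⟩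
    refine ⟨by simp, ?_⟩
    intro X hX
    simp only [Finset.empty_inter, Finset.card_empty]
    omega
  | succ t ih =>
    obtain ⟨h1, h2, h3, h4, h5⟩ := ih (by omega)
    have htn : t < n * n := by omega
    have hnot : t ∉ ga3L n R t := fun h => lt_irrefl _ (h2 t h).1
    rcases ga3_succ n R t with ⟨h6, h7, h8, h9⟩ | ⟨h6, h9⟩
    · rw [h9]
      have h10 : (t :: ga3L n R t).Nodup := List.nodup_cons.mpr ⟨hnot, h1⟩
      have h11 : ∀ k ∈ t :: ga3L n R t, k < t + 1 ∧ k / n < k % n ∧ R (k / n) (k % n) := by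
        intro k hk
        rcases List.mem_cons.mp hk with rfl | hk
        · exact ⟨Nat.lt_succ_self _, h6, h7⟩
        · exact ⟨(h2 k hk).1.trans (Nat.lt_succ_self _), (h2 k hk).2⟩
      have h12 : Sparse (eset n (t :: ga3L n R t)) :=
        (sparseN_iff h10 (fun k hk => ⟨(h11 k hk).1.trans_le ht, (h11 k hk).2.1⟩)).mp h8
      refine ⟨h10, h11, h12, ?_, ?_⟩
      · rw [ga3_eset htn h6, Finset.card_insert_of_notMem, h4, List.length_cons]
        intro hmem
        simp only [eset, Finset.mem_filter, Finset.mem_univ, true_and] at hmem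
        obtain ⟨u, v, huv, h13, h14⟩ := hmem
        unfold ga3E at h14
        rw [Sym2.eq_iff] at h14
        rcases h14 with ⟨h14, h15⟩ | ⟨h14, h15⟩
        · have h16 : t = u * n + v := by
            rw [← h14, ← h15]
            exact (Nat.div_add_mod' t n).symm
          exact hnot (h16 ▸ h13)
        · have h16 : (t / n : ℕ) = v := congrArg Fin.val h14
          have h17 : (t % n : ℕ) = u := congrArg Fin.val h15
          have h18 : (u : ℕ) < v := huv
          omega
      · intro k hk h13 h14 h15 h16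
        have hkt : k ≠ t := fun h => h15 (h ▸ List.mem_cons_self)
        have hk' : k < t := by omega
        have h17 : k ∉ ga3L n R t := fun h => h15 (List.mem_cons_of_mem _ h)
        refine h5 k hk' h13 h14 h17 (Pool.Agent.Helper36.Pin.ModE.Sparse.subset h16 ?_)
        apply Finset.insert_subset_insert
        rw [ga3_eset htn h6]
        exact Finset.subset_insert _ _
    · rw [h9]
      refine ⟨h1, fun k hk => ⟨(h2 k hk).1.trans (Nat.lt_succ_self _), (h2 k hk).2⟩, h3, h4, ?_⟩
      intro k hk h13 h14 h15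
      rcases Nat.lt_succ_iff_lt_or_eq.mp hk with hk' | rfl
      · exact h5 k hk' h13 h14 h15
      · intro h16
        refine h6 ⟨h13, h14, ?_⟩
        rw [sparseN_iff (List.nodup_cons.mpr ⟨hnot, h1⟩)]
        · rw [ga3_eset htn h13]
          exact h16
        · intro j hj
          rcases List.mem_cons.mp hj with rfl | hj
          · exact ⟨htn, h13⟩
          · exact ⟨(h2 j hj).1.trans htn, (h2 j hj).2.1⟩

theorem rkN_eq (n : ℕ) (R : ℕ → ℕ → Prop) : rkN n R = rk (pairs n R) := by
  obtain ⟨h1, h2, h3, h4, h5⟩ := ga3_inv n R (n * n) le_rfl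
  have h6 : rkN n R = (ga3L n R (n * n)).length := rfl
  rw [h6, ← h4]
  refine Pool.Agent.Helper36.Pin.ModD.card_eq_of_maximal ?_ h3 ?_
  · intro e he
    simp only [eset, Finset.mem_filter, Finset.mem_univ, true_and] at he
    obtain ⟨u, v, huv, h7, rfl⟩ := he
    rw [mem_pairs]
    have hn : 0 < n := u.pos
    have h8 := (h2 _ h7).2.2
    rw [Nat.mul_comm, Nat.mul_add_div hn, Nat.div_eq_of_lt v.2, Nat.add_zero, Nat.mul_add_mod,
      Nat.mod_eq_of_lt v.2] at h8
    exact Or.inl ⟨huv, h8⟩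
  · intro e he heI
    have he' := he
    simp only [pairs, Finset.mem_filter, Finset.mem_univ, true_and] at he'
    obtain ⟨u, v, huv, hR, rfl⟩ := he'
    have hn : 0 < n := u.pos
    have h7 : (u * n + v : ℕ) / n = u := by
      rw [Nat.mul_comm, Nat.mul_add_div hn, Nat.div_eq_of_lt v.2, Nat.add_zero]
    have h8 : (u * n + v : ℕ) % n = v := by
      rw [Nat.mul_comm, Nat.mul_add_mod, Nat.mod_eq_of_lt v.2]
    have h9 : (u * n + v : ℕ) < n * n := by
      have h10 : (u : ℕ) + 1 ≤ n := u.2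
      have h11 : ((u : ℕ) + 1) * n ≤ n * n := Nat.mul_le_mul_right n h10
      have h12 := v.2
      rw [Nat.add_mul, Nat.one_mul] at h11
      omega
    have h10 : ga3E n (u * n + v) h9 = s(u, v) := by
      unfold ga3E
      have h11 : (⟨(u * n + v : ℕ) / n, Nat.div_lt_of_lt_mul h9⟩ : Fin n) = u := Fin.ext h7
      have h12 : (⟨(u * n + v : ℕ) % n, Nat.mod_lt _ hn⟩ : Fin n) = v := Fin.ext h8
      rw [h11, h12]
    have h11 := h5 (u * n + v) h9 (by rw [h7, h8]; exact huv) (by rw [h7, h8]; exact hR) (by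
      intro hmem
      refine heI ?_
      simp only [eset, Finset.mem_filter, Finset.mem_univ, true_and]
      exact ⟨u, v, huv, hmem, rfl⟩)
    rw [h10] at h11
    exact h11

end Pool.Agent.Helper36.Alg
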