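import Pool.Agent.Helper36.Alg.Graph
import Pool.Agent.Helper25.GA.Rank
import Pool.Agent.Helper25.GA.Conn

/-! GA-5: the Jackson-Jordan condition. -/

set_option autoImplicit false

namespace Pool.Agent.Helper36.Alg

open Finset Pool.Agent.Helper36.PT
open Pool.Agent.Helper36.Pin (Sparse rk edges nbr ThreeConn RedRigid GR)

theorem ga5_mem_vset {n : ℕ} {χ : ℕ → Prop} {v : Fin n} : v ∈ vset n χ ↔ χ v := by
  simp only [vset, Finset.mem_filter, Finset.mem_univ, true_and]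

theorem ga5_vset_sdiff (n : ℕ) (χ : ℕ → Prop) (s t : Fin n) :
    vset n (fun v => χ v ∧ v ≠ s ∧ v ≠ t) = vset n χ \ {s, t} := by
  ext v
  simp only [ga5_mem_vset, Finset.mem_sdiff, Finset.mem_insert, Finset.mem_singleton, not_or,
    Fin.ext_iff, ne_eq]

theorem ga5_three (n : ℕ) (R : ℕ → ℕ → Prop) (χ : ℕ → Prop) :
    threeN n R χ ↔ ThreeConn (gr n R) (vset n χ) := by
  classical
  unfold threeN ThreeConn
  rw [cardN_eq]
  refine and_congr_right fun _ => ?_
  have key : ∀ s t : Fin n, connN n R (fun v => χ v ∧ v ≠ s ∧ v ≠ t) ↔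
      ((gr n R).induce ((vset n χ \ {s, t} : Finset (Fin n)) : Set (Fin n))).Connected := by
    intro s t
    rw [connN_iff, ga5_vset_sdiff]
  constructor
  · rintro ⟨h0, h2⟩ T hT hTc
    have h2' : ∀ s t : Fin n, s ∈ vset n χ → t ∈ vset n χ →
        ((gr n R).induce ((vset n χ \ {s, t} : Finset (Fin n)) : Set (Fin n))).Connected := by
      intro s t hs ht
      rw [← key]
      exact h2 s s.2 t t.2 (ga5_mem_vset.mp hs) (ga5_mem_vset.mp ht)
    rcases Nat.lt_or_ge T.card 1 with h | h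
    · have : T = ∅ := by
        rw [← Finset.card_eq_zero]; omega
      rw [this, Finset.sdiff_empty, ← connN_iff]
      exact h0
    rcases Nat.lt_or_ge T.card 2 with h' | h'
    · obtain ⟨s, rfl⟩ := Finset.card_eq_one.mp (show T.card = 1 by omega)
      have hs := hT (Finset.mem_singleton_self s)
      have h3 := h2' s s hs hs
      rwa [Finset.pair_eq_singleton] at h3
    · obtain ⟨s, t, _, rfl⟩ := Finset.card_eq_two.mp (show T.card = 2 by omega)
      exact h2' s t (hT (by simp)) (hT (by simp))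
  · intro h
    refine ⟨?_, ?_⟩
    · have h1 := h ∅ (Finset.empty_subset _) (by simp)
      rw [Finset.sdiff_empty, ← connN_iff] at h1
      exact h1
    · intro s hs t ht hχs hχt
      have h1 := h {(⟨s, hs⟩ : Fin n), ⟨t, ht⟩} (by
        intro v hv
        simp only [Finset.mem_insert, Finset.mem_singleton] at hv
        rw [ga5_mem_vset]
        rcases hv with rfl | rfl
        · exact hχs
        · exact hχt) Finset.card_le_two
      exact (key ⟨s, hs⟩ ⟨t, ht⟩).mpr h1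

theorem ga5_pairs (n : ℕ) (R : ℕ → ℕ → Prop) (χ : ℕ → Prop) :
    pairs n (fun x y => R x y ∧ χ x ∧ χ y) = edges (gr n R) ∩ (vset n χ).sym2 := by
  rw [edges_gr]
  ext e
  induction e with | _ u v =>
  rw [Finset.mem_inter, mem_pairs, mem_pairs, Finset.mk_mem_sym2_iff, ga5_mem_vset, ga5_mem_vset]
  unfold up
  tauto

theorem ga5_erase {n : ℕ} (R : ℕ → ℕ → Prop) {u v : Fin n} (huv : u < v) :
    pairs n (fun x y => R x y ∧ ¬ (x = u ∧ y = v)) = (pairs n R).erase s(u, v) := by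
  ext e
  induction e with | _ a b =>
  rw [Finset.mem_erase, mem_pairs, mem_pairs, Ne, Sym2.eq_iff]
  unfold up
  simp only [Fin.ext_iff]
  have huv' : (u : ℕ) < v := huv
  constructor
  · rintro (⟨h1, h2, h3⟩ | ⟨h1, h2, h3⟩)
    · refine ⟨?_, Or.inl ⟨h1, h2⟩⟩
      rintro (⟨h4, h5⟩ | ⟨h4, h5⟩)
      · exact h3 ⟨h4, h5⟩
      · omega
    · refine ⟨?_, Or.inr ⟨h1, h2⟩⟩
      rintro (⟨h4, h5⟩ | ⟨h4, h5⟩)
      · omega
      · exact h3 ⟨h5, h4⟩
  · rintro ⟨h3, (⟨h1, h2⟩ | ⟨h1, h2⟩)⟩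
    · exact Or.inl ⟨h1, h2, fun h => h3 (Or.inl h)⟩
    · exact Or.inr ⟨h1, h2, fun h => h3 (Or.inr ⟨h.2, h.1⟩)⟩

theorem ga5_rr (n : ℕ) (R : ℕ → ℕ → Prop) (χ : ℕ → Prop) :
    rrN n R χ ↔ RedRigid (gr n R) (vset n χ) := by
  unfold rrN RedRigid
  rw [rkN_eq, cardN_eq, ga5_pairs]
  refine and_congr_right fun _ => ?_
  constructor
  · intro h e he
    rw [← ga5_pairs] at he
    have he' := he
    simp only [pairs, Finset.mem_filter, Finset.mem_univ, true_and] at he'
    obtain ⟨u, v, huv, hR, rfl⟩ := he'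
    have h1 := h u u.2 v v.2 ⟨huv, hR⟩
    rw [rkN_eq, ga5_erase (fun x y => R x y ∧ χ x ∧ χ y) huv, ga5_pairs] at h1
    exact h1
  · intro h u hu v hv huv
    have huv' : (⟨u, hu⟩ : Fin n) < ⟨v, hv⟩ := huv.1
    have h1 := h s(⟨u, hu⟩, ⟨v, hv⟩) (by
      rw [← ga5_pairs, mem_pairs]
      exact Or.inl huv)
    rw [rkN_eq]
    have h2 := ga5_erase (fun x y => R x y ∧ χ x ∧ χ y) huv'
    simp only at h2
    rw [h2, ga5_pairs]
    exact h1

theorem grN_iff (n : ℕ) (R : ℕ → ℕ → Prop) (χ : ℕ → Prop) :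
    grN n R χ ↔ GR (gr n R) (vset n χ) := by
  unfold grN GR
  rw [ga5_three, ga5_rr]

end Pool.Agent.Helper36.Alg
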